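import Mathlib
import Pool.Agent.LibTypeA.Basic
import Pool.Agent.LibTypeA.Lnd
import Pool.Agent.LibTypeA.Cyl

set_option autoImplicit false

namespace Pool.Agent.Results.MP_37b72a_ag.TypeAFixedPoint

open Polynomial Pool.Agent.LibTypeA

universe u

section

variable (K : Type u) [Field K]

/-- the parameter `x = T - 1` in `K[T, T⁻¹]` -/
noncomputable def xT : LaurentPolynomial K := LaurentPolynomial.T 1 - 1

theorem xT_ne : xT K ≠ 0 := by
  intro h
  have h1 : (LaurentPolynomial.T 1 : LaurentPolynomial K) = LaurentPolynomial.T 0 := by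
    rw [LaurentPolynomial.T_zero]
    exact sub_eq_zero.mp h
  have h2 := congrArg (fun f : LaurentPolynomial K => f.coeff 1) h1
  simp only [LaurentPolynomial.T_apply] at h2
  simp at h2

/-- evaluation at `T = 1` -/
noncomputable def ev : LaurentPolynomial K →ₐ[K] K :=
  AddMonoidAlgebra.lift K K ℤ 1

theorem ev_T (n : ℤ) : ev K (LaurentPolynomial.T n) = 1 := by
  have h : ev K (LaurentPolynomial.T n) = (1 : K) • (1 : Multiplicative ℤ →* K)
      (Multiplicative.ofAdd n) := AddMonoidAlgebra.lift_single _ _ _
  rw [h]
  simp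

theorem ev_x : ev K (xT K) = 0 := by
  unfold xT
  rw [map_sub, ev_T, map_one, sub_self]

end

/-- For every field of characteristic zero there is an affine variety of type A whose ideal of
images of locally nilpotent derivations is proper and which has a stable point. -/
theorem result (K : Type u) [Field K] [CharZero K] :
    ∃ (B : Type u) (_ : CommRing B) (_ : Algebra K B),
      IsDomain B ∧ Algebra.FiniteType K B ∧ TypeA K B ∧ imageIdeal K B ≠ ⊤ ∧
        ∃ p : B →ₐ[K] K, IsStable p := by
  have hx := xT_ne K
  have hdom := isDomain_BB hx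
  refine ⟨BB (xT K), inferInstance, inferInstance, hdom, ?_, typeA_BB hx, ?_⟩
  · exact Algebra.FiniteType.trans (S := (LaurentPolynomial K)[X]) inferInstance inferInstance
  have : CharZero (LaurentPolynomial K) := charZero_of_injective_algebraMap
    (algebraMap K (LaurentPolynomial K)).injective
  have : CharZero (BB (xT K)) := charZero_of_injective_algebraMap
    (algebraMap K (BB (xT K))).injective
  -- derivations kill the base
  have hR : ∀ D : Derivation K (BB (xT K)) (BB (xT K)), IsLND D → ∀ r, D (cc (xT K) r) = 0 := by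
    intro D hD r
    have hT : ∀ n : ℤ, D (cc (xT K) (LaurentPolynomial.T n)) = 0 := by
      intro n
      apply lnd_unit hD (v := cc (xT K) (LaurentPolynomial.T (-n)))
      rw [← cc_mul, ← LaurentPolynomial.T_add, add_neg_cancel, LaurentPolynomial.T_zero]
      ext1 <;> simp [cc, re_one', im_one']
    induction r using LaurentPolynomial.induction_on' with
    | add p q hp hq =>
      have : cc (xT K) (p + q) = cc (xT K) p + cc (xT K) q := map_add (ccHom K (xT K)) p q
      rw [this, map_add, hp, hq, add_zero]
    | C_mul_T n a =>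
      rw [cc_mul, D.leibniz, hT n]
      have : D (cc (xT K) (LaurentPolynomial.C a)) = 0 := D.map_algebraMap a
      rw [this]
      simp
  let p : BB (xT K) →ₐ[K] K := liftB (xT K) (ev K) 0 0 (by
    rw [ev_x]; ring)
  have hp : ∀ r, p (cc (xT K) r) = ev K r := fun r => liftB_cc _ _ _ _ _ r
  have hpz : p (zz (xT K)) = 0 := liftB_zz _ _ _ _ _
  have hvan : ∀ D : Derivation K (BB (xT K)) (BB (xT K)), IsLND D → ∀ b, p (D b) = 0 := by
    intro D hD b
    exact D_vanish hx (ev K) (ev_x K) D hD (hR D hD) p hp hpz b
  refine ⟨?_, p, ?_⟩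
  · intro htop
    have hle : imageIdeal K (BB (xT K)) ≤ RingHom.ker p := by
      unfold imageIdeal
      rw [Ideal.span_le]
      rintro _ ⟨D, hD, f, rfl⟩
      exact hvan D hD f
    rw [htop] at hle
    have h1 : (1 : BB (xT K)) ∈ RingHom.ker p := hle trivial
    rw [RingHom.mem_ker, map_one] at h1
    exact one_ne_zero h1
  · intro φ hφ
    unfold SAut at hφ
    induction hφ using Subgroup.closure_induction with
    | mem φ hφ =>
      obtain ⟨D, hD, hexp⟩ := hφ
      intro b
      obtain ⟨n, hn⟩ := hD b
      rw [hexp b (n + 1) (iterate_zero_of_le D hn (Nat.le_succ n)), map_sum,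
        Finset.sum_range_succ']
      have h1 : ∑ i ∈ Finset.range n,
          p (((i + 1).factorial : K)⁻¹ • (⇑D)^[i + 1] b) = 0 := by
        apply Finset.sum_eq_zero
        intro i _
        rw [map_smul, Function.iterate_succ_apply', hvan D hD, smul_zero]
      rw [h1]
      simp
    | one => intro b; rfl
    | mul φ ψ _ _ h1 h2 =>
      intro b
      rw [AlgEquiv.mul_apply, h1, h2]
    | inv φ _ h1 =>
      intro b
      have h2 := h1 (φ⁻¹ b)
      rw [← h2]
      congr 1
      exact φ.apply_symm_apply b

end Pool.Agent.Results.MP_37b72a_ag.TypeAFixedPoint
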